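import Pool.Agent.R179.Fac.Stmts

open Set Real

namespace Pool.Agent.R310.Fac

open Pool.Agent.R179.Fac

/-- unit vector with angle `t`. -/
noncomputable def ev (t : ℝ) : E 2 := WithLp.toLp 2 ![cos t, sin t]

lemma inner_ev (t : ℝ) (x : E 2) : inner ℝ (ev t) x = cos t * x 0 + sin t * x 1 := by
  simp [PiLp.inner_apply, ev, Fin.sum_univ_two]
  ring

lemma inner_ev_ev (s t : ℝ) : inner ℝ (ev s) (ev t) = cos (s - t) := by
  rw [inner_ev, cos_sub]; simp [ev]

lemma norm_ev (t : ℝ) : ‖ev t‖ = 1 := by
  rw [EuclideanSpace.norm_eq]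
  simp [ev, Fin.sum_univ_two]

lemma ev_add_pi (t : ℝ) : ev (t + π) = - ev t := by
  ext i
  fin_cases i <;> simp [ev, cos_add_pi, sin_add_pi]

lemma ev_add_int (t : ℝ) (k : ℤ) : ev (t + k * (2 * π)) = ev t := by
  ext i
  fin_cases i
  · simp [ev, cos_add_int_mul_two_pi]
  · simp [ev, sin_add_int_mul_two_pi]

lemma ev_polar (x : E 2) : ∃ θ : ℝ, x = ‖x‖ • ev θ := by
  set z : ℂ := ⟨x 0, x 1⟩ with hz
  refine ⟨z.arg, ?_⟩
  have hn : ‖x‖ = ‖z‖ := by
    rw [EuclideanSpace.norm_eq, Complex.norm_def, Complex.normSq_apply]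
    simp [Fin.sum_univ_two, hz, sq]
  rw [hn]
  ext i
  fin_cases i
  · simp [ev]
    rfl
  · simp [ev]
    rfl

lemma cos_odd_le {m : ℕ} (hm : 2 ≤ m) (l : ℤ) (hl : Odd l) :
    cos (π * l / (2 * m)) ≤ cos (π / (2 * m)) := by
  have hm0 : (0 : ℝ) < m := by positivity
  set r : ℤ := Int.bmod l (4 * m) with hr
  have h1 : r ≤ 2 * m := by
    have := Int.bmod_lt (x := l) (m := 4 * m) (by omega)
    push_cast at this
    omega
  have h2 : -(2 * m) ≤ r := by
    have := Int.le_bmod (x := l) (m := 4 * m) (by omega)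
    push_cast at this
    omega
  obtain ⟨q, hq⟩ : ∃ q : ℤ, l = r + 4 * m * q := by
    obtain ⟨q, hq⟩ := Int.dvd_self_sub_bmod (x := l) (m := 4 * m)
    refine ⟨q, ?_⟩
    push_cast at hq
    rw [hr]
    linarith
  have hodd : r ≠ 0 := by
    rintro h0
    obtain ⟨a, ha⟩ := hl
    rw [h0] at hq
    have : 2 * a + 1 = 2 * (2 * m * q) := by rw [← ha, hq]; ring
    omega
  have habs : (1 : ℤ) ≤ |r| := Int.one_le_abs hodd
  have habs2 : |r| ≤ 2 * m := abs_le.2 ⟨h2, h1⟩
  have e : cos (π * l / (2 * m)) = cos (π * |r| / (2 * m)) := by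
    have e1 : π * l / (2 * m) = π * r / (2 * m) + q * (2 * π) := by
      rw [hq]; push_cast; field_simp; ring
    rw [e1, cos_add_int_mul_two_pi]
    rcases abs_cases r with h | h
    · rw [h.1]
    · rw [h.1, ← cos_neg]
      congr 1
      push_cast
      ring
  rw [e]
  have hb1 : (1 : ℝ) ≤ ((|r| : ℤ) : ℝ) := by exact_mod_cast habs
  have hb2 : ((|r| : ℤ) : ℝ) ≤ 2 * m := by exact_mod_cast habs2
  apply cos_le_cos_of_nonneg_of_le_pi
  · positivity
  · rw [div_le_iff₀ (by positivity)]
    have := pi_pos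
    nlinarith
  · apply div_le_div_of_nonneg_right _ (by positivity)
    have := pi_pos
    nlinarith

theorem e2_ok : St_E2 := by
  classical
  intro m hm
  have hm0 : (0 : ℝ) < m := by positivity
  have hpi := pi_pos
  set al : ℤ → ℝ := fun k => π * (2 * k + 1) / (2 * m) with hal
  set be : ℤ → ℝ := fun k => π * k / m with hbe
  have hper : ∀ k q : ℤ, ev (al (k + 2 * m * q)) = ev (al k) := by
    intro k q
    rw [← ev_add_int (al k) q]
    congr 1
    simp only [hal]
    push_cast
    field_simp
    ring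
  have hperb : ∀ k q : ℤ, ev (be (k + 2 * m * q)) = ev (be k) := by
    intro k q
    rw [← ev_add_int (be k) q]
    congr 1
    simp only [hbe]
    push_cast
    field_simp
  have hred : ∀ k : ℤ, ∃ (i : Fin (2 * m)) (q : ℤ), k = (i : ℤ) + 2 * m * q := by
    intro k
    have h1 : 0 ≤ k % (2 * m) := Int.emod_nonneg _ (by omega)
    have h2 : k % (2 * m) < 2 * m := Int.emod_lt_of_pos _ (by omega)
    refine ⟨⟨(k % (2 * m)).toNat, by omega⟩, k / (2 * m), ?_⟩
    simp only
    rw [Int.toNat_of_nonneg h1]
    exact (Int.emod_add_mul_ediv k (2 * m)).symm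
  have hc : 0 < cos (π / (2 * m)) := by
    apply cos_pos_of_mem_Ioo
    constructor
    · have : 0 < π / (2 * m) := by positivity
      linarith
    · rw [div_lt_div_iff₀ (by positivity) (by norm_num)]
      have : (2 : ℝ) ≤ m := by exact_mod_cast hm
      nlinarith
  set u : Fin (2 * m) → E 2 := fun i => ev (al (i : ℤ)) with hu
  set h : Fin (2 * m) → ℝ := fun _ => cos (π / (2 * m)) with hh
  have hall : ∀ x ∈ HPoly u h, ∀ k : ℤ, inner ℝ (ev (al k)) x ≤ cos (π / (2 * m)) := by
    intro x hx k
    obtain ⟨i, q, hk⟩ := hred k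
    rw [hk, hper]
    exact hx i
  have hle : ∀ x ∈ HPoly u h, ‖x‖ ≤ 1 := by
    intro x hx
    obtain ⟨θ, hθ⟩ := ev_polar x
    set j : ℤ := ⌊θ * m / π⌋ with hj
    have j1 : (j : ℝ) ≤ θ * m / π := Int.floor_le _
    have j2 : θ * m / π < j + 1 := Int.lt_floor_add_one _
    have k1 : j * π ≤ θ * m := by rwa [le_div_iff₀ hpi] at j1
    have k2 : θ * m < (j + 1) * π := by rwa [div_lt_iff₀ hpi] at j2
    have hd : |al j - θ| ≤ π / (2 * m) := by
      rw [abs_le]
      constructor
      · have : -(π / (2 * m)) ≤ al j - θ ↔ θ * m ≤ (j + 1) * π := by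
          simp only [hal]
          rw [← sub_nonneg, ← sub_nonneg (a := (j + 1) * π)]
          have : π * (2 * j + 1) / (2 * m) - θ - -(π / (2 * m)) = ((j + 1) * π - θ * m) / m := by
            field_simp; ring
          rw [this]
          constructor
          · intro h
            by_contra! hcon
            have := div_neg_of_neg_of_pos hcon hm0
            linarith
          · intro h; positivity
        exact this.2 k2.le
      · have : al j - θ ≤ π / (2 * m) ↔ j * π ≤ θ * m := by
          simp only [hal]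
          rw [← sub_nonneg, ← sub_nonneg (a := θ * m)]
          have : π / (2 * m) - (π * (2 * j + 1) / (2 * m) - θ) = (θ * m - j * π) / m := by
            field_simp; ring
          rw [this]
          constructor
          · intro h
            by_contra! hcon
            have := div_neg_of_neg_of_pos hcon hm0
            linarith
          · intro h; positivity
        exact this.2 k1
    have h3 := hall x hx j
    have h4 : inner ℝ (ev (al j)) x = ‖x‖ * cos (al j - θ) := by
      conv_lhs => rw [hθ]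
      rw [inner_smul_right, inner_ev_ev]
    have h5 : cos (π / (2 * m)) ≤ cos (al j - θ) := by
      rw [← cos_abs (al j - θ)]
      apply cos_le_cos_of_nonneg_of_le_pi (abs_nonneg _) _ hd
      rw [div_le_iff₀ (by positivity)]
      have : (2 : ℝ) ≤ m := by exact_mod_cast hm
      nlinarith
    rw [h4] at h3
    by_contra! hcon
    nlinarith [norm_nonneg x]
  have hvert : ∀ k : ℤ, ev (be k) ∈ HPoly u h := by
    intro k i
    simp only [hu, hh]
    rw [inner_ev_ev]
    have : al (i : ℤ) - be k = π * ((2 * ((i : ℤ) - k) + 1 : ℤ) : ℝ) / (2 * m) := by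
      simp only [hal, hbe]
      push_cast
      field_simp
      ring
    rw [this]
    exact cos_odd_le hm _ ⟨(i : ℤ) - k, rfl⟩
  refine ⟨u, h, Finset.univ.image (fun i : Fin (2 * m) => ev (be (i : ℤ))), id, ?_, ⟨0, ?_⟩, ?_,
    ?_, ?_⟩
  · refine (Metric.isBounded_closedBall (x := (0 : E 2)) (r := 1)).subset ?_
    intro x hx
    rw [mem_closedBall_zero_iff]
    exact hle x hx
  · intro i
    simpa [hh] using hc
  · intro x hx i
    have := hall x hx ((i : ℤ) + m)
    have e : al ((i : ℤ) + m) = al i + π := by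
      simp only [hal]; push_cast; field_simp; ring
    rw [e, ev_add_pi, inner_neg_left] at this
    rw [inner_neg_right]
    exact this
  · rw [Finset.card_image_of_injective, Finset.card_univ, Fintype.card_fin]
    intro i j hij
    have e1 : cos (be i) = cos (be j) := by
      have := congrArg (fun z : E 2 => z 0) hij
      simpa [ev] using this
    have e2 : sin (be i) = sin (be j) := by
      have := congrArg (fun z : E 2 => z 1) hij
      simpa [ev] using this
    have e3 := Real.Angle.cos_sin_inj e1 e2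
    rw [Real.Angle.angle_eq_iff_two_pi_dvd_sub] at e3
    obtain ⟨k, hk⟩ := e3
    have e4 : ((i : ℕ) : ℝ) - ((j : ℕ) : ℝ) = 2 * m * k := by
      simp only [hbe] at hk
      push_cast at hk
      field_simp at hk
      nlinarith
    have e5 : ((i : ℕ) : ℤ) - ((j : ℕ) : ℤ) = 2 * m * k := by exact_mod_cast e4
    have e6 : k = 0 := by
      have i1 := i.2
      have j1 := j.2
      by_contra hk0
      rcases lt_or_gt_of_ne hk0 with hk1 | hk1
      · have : 2 * (m : ℤ) * k ≤ 2 * m * (-1) := by
          apply mul_le_mul_of_nonneg_left (by omega) (by omega)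
        omega
      · have : 2 * (m : ℤ) * 1 ≤ 2 * m * k := by
          apply mul_le_mul_of_nonneg_left (by omega) (by omega)
        omega
    rw [e6] at e5
    ext
    omega
  · intro w hw
    simp only [Finset.mem_image, Finset.mem_univ, true_and] at hw
    obtain ⟨i, rfl⟩ := hw
    refine ⟨hvert _, ?_, rfl, ?_⟩
    · obtain ⟨j, q, hj⟩ := hred ((i : ℤ) + m)
      have e : be ((i : ℤ) + m) = be i + π := by
        simp only [hbe]; push_cast; field_simp
      rw [← ev_add_pi, ← e, hj, hperb]
      exact Finset.mem_image_of_mem _ (Finset.mem_univ j)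
    · intro x hx hne
      simp only [id]
      rw [inner_ev_ev, sub_self, cos_zero]
      have h1 := hle x hx
      by_contra! hcon
      apply hne
      have h2 : ‖x - ev (be i)‖ ^ 2 = ‖x‖ ^ 2 - 2 * inner ℝ (ev (be i)) x + 1 := by
        rw [norm_sub_sq_real, norm_ev, real_inner_comm]
        ring
      have h3 : ‖x - ev (be i)‖ ^ 2 ≤ 0 := by
        rw [h2]
        nlinarith [norm_nonneg x]
      have h4 : ‖x - ev (be i)‖ = 0 := by nlinarith [norm_nonneg (x - ev (be i))]
      exact sub_eq_zero.1 (norm_eq_zero.1 h4)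

end Pool.Agent.R310.Fac
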