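import Pool.Agent.R179.Fac.Stmts

open Set

namespace Pool.Agent.R310.Fac

open Pool.Agent.R179.Fac

/-- The point of `E (d+d')` with the given two parts. -/
noncomputable def app {d d' : ℕ} (a : E d) (b : E d') : E (d + d') :=
  WithLp.toLp 2 (Fin.append a.ofLp b.ofLp)

noncomputable def p1 {d d' : ℕ} (x : E (d + d')) : E d :=
  WithLp.toLp 2 (fun i => x (Fin.castAdd d' i))

noncomputable def p2 {d d' : ℕ} (x : E (d + d')) : E d' :=
  WithLp.toLp 2 (fun i => x (Fin.natAdd d i))

@[simp] lemma p1_app {d d' : ℕ} (a : E d) (b : E d') : p1 (app a b) = a := by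
  ext i; simp [p1, app]

@[simp] lemma p2_app {d d' : ℕ} (a : E d) (b : E d') : p2 (app a b) = b := by
  ext i; simp [p2, app]

@[simp] lemma p1_neg {d d' : ℕ} (x : E (d + d')) : p1 (-x) = -p1 x := by
  ext i; simp [p1]

@[simp] lemma p2_neg {d d' : ℕ} (x : E (d + d')) : p2 (-x) = -p2 x := by
  ext i; simp [p2]

lemma ext_p {d d' : ℕ} {x y : E (d + d')} (h1 : p1 x = p1 y) (h2 : p2 x = p2 y) : x = y := by
  ext i
  refine Fin.addCases (fun i => ?_) (fun i => ?_) i
  · have := congrArg (fun z : E d => z i) h1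
    simpa [p1] using this
  · have := congrArg (fun z : E d' => z i) h2
    simpa [p2] using this

lemma app_neg {d d' : ℕ} (a : E d) (b : E d') : app (-a) (-b) = -app a b := by
  apply ext_p <;> simp

lemma inner_app {d d' : ℕ} (a : E d) (b : E d') (x : E (d + d')) :
    inner ℝ (app a b) x = inner ℝ a (p1 x) + inner ℝ b (p2 x) := by
  simp [PiLp.inner_apply, Fin.sum_univ_add, app, p1, p2]

lemma norm_sq_p {d d' : ℕ} (x : E (d + d')) : ‖x‖ ^ 2 = ‖p1 x‖ ^ 2 + ‖p2 x‖ ^ 2 := by
  simp [EuclideanSpace.norm_sq_eq, Fin.sum_univ_add, p1, p2]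

theorem e3_prod (d N M d' N' M' : ℕ) (h1 : HasNM d N M) (h2 : HasNM d' N' M') :
    HasNM (d + d') (N + N') (M * M') := by
  classical
  obtain ⟨u, h, W, f, hb, ⟨x0, hx0⟩, hs, hc, hW⟩ := h1
  obtain ⟨u', h', W', f', hb', ⟨x0', hx0'⟩, hs', hc', hW'⟩ := h2
  set U : Fin (N + N') → E (d + d') :=
    Fin.append (fun i => app (u i) 0) (fun j => app 0 (u' j)) with hU
  set H : Fin (N + N') → ℝ := Fin.append h h' with hH
  have mem : ∀ x : E (d + d'), x ∈ HPoly U H ↔ p1 x ∈ HPoly u h ∧ p2 x ∈ HPoly u' h' := by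
    intro x
    constructor
    · intro hx
      refine ⟨fun i => ?_, fun i => ?_⟩
      · have := hx (Fin.castAdd N' i)
        simpa [hU, hH, inner_app] using this
      · have := hx (Fin.natAdd N i)
        simpa [hU, hH, inner_app] using this
    · rintro ⟨ha, hb⟩ i
      refine Fin.addCases (fun i => ?_) (fun i => ?_) i
      · have := ha i
        simpa [hU, hH, inner_app] using this
      · have := hb i
        simpa [hU, hH, inner_app] using this
  refine ⟨U, H, (W ×ˢ W').image (fun p => app p.1 p.2), fun x => app (f (p1 x)) (f' (p2 x)),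
    ?_, ⟨app x0 x0', ?_⟩, ?_, ?_, ?_⟩
  · obtain ⟨R, hR⟩ := hb.exists_norm_le
    obtain ⟨R', hR'⟩ := hb'.exists_norm_le
    refine (Metric.isBounded_closedBall (x := (0 : E (d + d'))) (r := R + R')).subset ?_
    intro x hx
    rw [mem_closedBall_zero_iff]
    have a1 := hR _ ((mem x).1 hx).1
    have a2 := hR' _ ((mem x).1 hx).2
    have b1 := norm_nonneg (p1 x)
    have b2 := norm_nonneg (p2 x)
    have e := norm_sq_p x
    by_contra! hcon
    have c1 : (R + R') ^ 2 < ‖x‖ ^ 2 := by
      have : 0 ≤ R + R' := by linarith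
      nlinarith
    nlinarith
  · intro i
    refine Fin.addCases (fun i => ?_) (fun i => ?_) i
    · simpa [hU, hH, inner_app] using hx0 i
    · simpa [hU, hH, inner_app] using hx0' i
  · intro x hx
    rw [mem] at hx ⊢
    rw [p1_neg, p2_neg]
    exact ⟨hs _ hx.1, hs' _ hx.2⟩
  · rw [Finset.card_image_of_injective, Finset.card_product, hc, hc']
    rintro ⟨a, b⟩ ⟨a', b'⟩ hab
    have e1 := congrArg p1 hab
    have e2 := congrArg p2 hab
    simp at e1 e2
    rw [e1, e2]
  · intro w hw
    simp only [Finset.mem_image, Finset.mem_product, Prod.exists] at hw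
    obtain ⟨a, b, ⟨ha, hb⟩, rfl⟩ := hw
    obtain ⟨q1, q2, q3, q4⟩ := hW a ha
    obtain ⟨r1, r2, r3, r4⟩ := hW' b hb
    refine ⟨?_, ?_, ?_, ?_⟩
    · rw [mem]; simpa using ⟨q1, r1⟩
    · rw [← app_neg]
      exact Finset.mem_image_of_mem (fun p : E d × E d' => app p.1 p.2)
        (Finset.mk_mem_product q2 r2)
    · simp [q3, r3, app_neg]
    · intro x hx hne
      rw [mem] at hx
      simp only [inner_app, p1_app, p2_app]
      have A : inner ℝ (f a) (p1 x) ≤ inner ℝ (f a) a := by
        by_cases e : p1 x = a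
        · rw [e]
        · exact (q4 _ hx.1 e).le
      have B : inner ℝ (f' b) (p2 x) ≤ inner ℝ (f' b) b := by
        by_cases e : p2 x = b
        · rw [e]
        · exact (r4 _ hx.2 e).le
      by_cases e : p1 x = a
      · have e' : p2 x ≠ b := by
          intro e'
          exact hne (ext_p (by simpa using e) (by simpa using e'))
        have := r4 _ hx.2 e'
        linarith
      · have := q4 _ hx.1 e
        linarith

theorem e3_seg : HasNM 1 2 2 := by
  classical
  set e : E 1 := EuclideanSpace.single 0 1 with he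
  have hin : ∀ x : E 1, inner ℝ e x = x 0 := by
    intro x; simp [he, EuclideanSpace.inner_single_left]
  have hne : e ≠ -e := by
    intro h
    have := congrArg (fun z : E 1 => z 0) h
    simp [he] at this
    linarith
  have mem : ∀ x : E 1, x ∈ HPoly ![e, -e] ![(1 : ℝ), 1] ↔ x 0 ≤ 1 ∧ - x 0 ≤ 1 := by
    intro x
    simp [HPoly, Fin.forall_fin_two, hin, inner_neg_left]
  have e0 : e 0 = 1 := by simp [he]
  refine ⟨![e, -e], ![1, 1], {e, -e}, id, ?_, ⟨0, ?_⟩, ?_, ?_, ?_⟩
  · refine (Metric.isBounded_closedBall (x := (0 : E 1)) (r := 1)).subset ?_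
    intro x hx
    rw [mem_closedBall_zero_iff, EuclideanSpace.norm_eq]
    rw [mem] at hx
    simp
    exact abs_le.2 ⟨by linarith [hx.2], hx.1⟩
  · intro i
    fin_cases i <;> simp
  · intro x hx
    rw [mem] at hx ⊢
    simp
    exact ⟨by linarith [hx.2], hx.1⟩
  · exact Finset.card_pair hne
  · intro w hw
    have key : ∀ x : E 1, x ∈ HPoly ![e, -e] ![(1 : ℝ), 1] → x ≠ e → x 0 < 1 := by
      intro x hx hxe
      rw [mem] at hx
      rcases lt_or_eq_of_le hx.1 with h | h
      · exact h
      · exfalso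
        apply hxe
        ext i
        fin_cases i
        simp only [Fin.zero_eta]
        rw [h, e0]
    simp only [Finset.mem_insert, Finset.mem_singleton] at hw
    rcases hw with rfl | rfl
    · refine ⟨by rw [mem, e0]; norm_num, by simp, rfl, ?_⟩
      intro x hx hxe
      simp only [id]
      rw [hin, hin, e0]
      exact key x hx hxe
    · refine ⟨by rw [mem]; simp [e0], by simp, rfl, ?_⟩
      intro x hx hxe
      simp only [id]
      rw [inner_neg_left, inner_neg_left, hin, hin]
      have hx' : -x ∈ HPoly ![e, -e] ![(1 : ℝ), 1] := by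
        rw [mem] at hx ⊢
        simp
        exact ⟨by linarith [hx.2], hx.1⟩
      have := key (-x) hx' (fun h => hxe (by rw [← h, neg_neg]))
      simp at this ⊢
      rw [e0]
      linarith

theorem e3_ok : St_E3 := ⟨e3_seg, e3_prod⟩

end Pool.Agent.R310.Fac
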